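import Mathlib

/-!
# A component of an intersection of balanced complexes without stable intersection point

In `ℝ⁴` there are a balanced two-dimensional fan `A` (connected through codimension one and
irreducible: the weights are unique up to a factor) and an affine plane `B` such that the stable
intersection of `A` and `B` is nonempty and some connected component of `|A| ∩ |B|` contains no
point of the stable intersection.

The fan has the rays `a = (1,1,0,0)`, `b = (0,-1,0,0)`, `c = (1,0,1,0)`, `d = (-1,0,-1,0)`,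
`e = (0,0,1,1)`, `f = (0,0,0,-1)`, `g = (0,0,-1,0)`, `h = (-1,0,0,0)` and the two-dimensional cones
`bc, ac, ah, bh, ce, cf, ag, bg, de, df, dg`. The plane is `x₀ = -1, x₁ = 0`. The intersection
consists of the point `(-1,0,0,0)`, at which the intersection is transversal, and of a tropical line
with vertex `(-1,0,-1,0)` in the cones `de, df, dg`, which are not transversal to the plane.
-/

set_option autoImplicit false

open Set
open scoped Pointwise

namespace Pool.Agent.Results.MP_7d0545_co.StableComponent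

/-! ### Definitions -/

/-- A rational polyhedron: the set of solutions of finitely many inequalities `⟨a, x⟩ ≤ b` with
integer vectors `a` and real `b`. -/
def IsRationalPolyhedron {n : ℕ} (P : Set (Fin n → ℝ)) : Prop :=
  ∃ S : Finset ((Fin n → ℤ) × ℝ), P = {x | ∀ a ∈ S, ∑ j, (a.1 j : ℝ) * x j ≤ a.2}

/-- `F` is a face of `P`: the set of points of `P` at which some linear functional bounded by `c` on
`P` has the value `c`. -/
def IsFace {n : ℕ} (F P : Set (Fin n → ℝ)) : Prop :=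
  ∃ (u : Fin n → ℝ) (c : ℝ), (∀ x ∈ P, ∑ j, u j * x j ≤ c) ∧
    F = {x | x ∈ P ∧ ∑ j, u j * x j = c}

/-- the dimension of the affine hull -/
noncomputable def dim {n : ℕ} (P : Set (Fin n → ℝ)) : ℕ := Module.finrank ℝ (vectorSpan ℝ P)

/-- an integer vector as a real vector -/
def toReal {n : ℕ} (v : Fin n → ℤ) : Fin n → ℝ := fun j => (v j : ℝ)

/-- `v` is an integer normal vector of the ridge `τ` pointing into `σ`: it points from `τ` into `σ`,
and together with the lattice of `τ` it generates the lattice of `σ` (the lattice of a polyhedron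
consists of the integer vectors in the linear space parallel to its affine hull). -/
structure IsNormalVector {n : ℕ} (τ σ : Set (Fin n → ℝ)) (v : Fin n → ℤ) : Prop where
  inward : ∃ x ∈ τ, ∃ ε : ℝ, 0 < ε ∧ x + ε • toReal v ∈ σ
  generates : ∀ u : Fin n → ℤ, toReal u ∈ vectorSpan ℝ σ →
    ∃ k : ℤ, toReal (u - k • v) ∈ vectorSpan ℝ τ

/-- A rational polyhedral complex in `ℝⁿ`, pure of dimension `d`, with finitely many cells. -/
structure PolyhedralComplex (n d : ℕ) where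
  /-- the index set of the cells -/
  ι : Type
  [fintype : Fintype ι]
  [nonempty : Nonempty ι]
  /-- the cells -/
  cell : ι → Set (Fin n → ℝ)
  cell_injective : Function.Injective cell
  cell_nonempty : ∀ i, (cell i).Nonempty
  rational : ∀ i, IsRationalPolyhedron (cell i)
  face_mem : ∀ i F, IsFace F (cell i) → F.Nonempty → ∃ j, cell j = F
  inter_face : ∀ i j, (cell i ∩ cell j).Nonempty → IsFace (cell i ∩ cell j) (cell i)
  pure : ∀ i, ∃ j, cell i ⊆ cell j ∧ dim (cell j) = d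
  dim_le : ∀ i, dim (cell i) ≤ d

attribute [instance] PolyhedralComplex.fintype PolyhedralComplex.nonempty

open Classical in
/-- The balancing condition for a weight function `w` on the cells (only the weights of the
`d`-dimensional cells matter): for every cell `τ` of dimension `d - 1` the weighted sum of integer
normal vectors of `τ` pointing into the `d`-cells containing `τ` lies in the linear space parallel
to the affine hull of `τ`. -/
def IsBalanced {n d : ℕ} (A : PolyhedralComplex n d) (w : A.ι → ℝ) : Prop :=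
  ∀ τ, dim (A.cell τ) + 1 = d → ∃ v : A.ι → Fin n → ℤ,
    (∀ σ, dim (A.cell σ) = d → A.cell τ ⊆ A.cell σ →
      IsNormalVector (A.cell τ) (A.cell σ) (v σ)) ∧
    ∑ σ with dim (A.cell σ) = d ∧ A.cell τ ⊆ A.cell σ, w σ • toReal (v σ) ∈
      vectorSpan ℝ (A.cell τ)

/-- A balanced polyhedral complex: the `d`-dimensional cells carry positive integer weights such
that the balancing condition holds. -/
structure BalancedComplex (n d : ℕ) extends PolyhedralComplex n d where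
  /-- the weights (only the weights of `d`-dimensional cells matter) -/
  weight : ι → ℕ
  weight_pos : ∀ i, dim (cell i) = d → 0 < weight i
  balanced : IsBalanced toPolyhedralComplex fun i => (weight i : ℝ)

/-- the support -/
def BalancedComplex.support {n d : ℕ} (A : BalancedComplex n d) : Set (Fin n → ℝ) :=
  ⋃ i, A.cell i

/-- the support of the stable intersection: the union of all `σ₁ ∩ σ₂`, `σ₁` a cell of `A`, `σ₂` a
cell of `B`, such that the Minkowski sum `σ₁ + σ₂` has dimension `n` -/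
def stableIntersection {n d e : ℕ} (A : BalancedComplex n d) (B : BalancedComplex n e) :
    Set (Fin n → ℝ) :=
  {x | ∃ i j, dim (A.cell i + B.cell j) = n ∧ x ∈ A.cell i ∩ B.cell j}

/-- two `d`-cells are adjacent if they have a common face of dimension `d - 1` -/
def Adjacent {n d : ℕ} (A : PolyhedralComplex n d) (σ σ' : A.ι) : Prop :=
  ∃ τ, dim (A.cell τ) + 1 = d ∧ A.cell τ ⊆ A.cell σ ∧ A.cell τ ⊆ A.cell σ'

/-- connected through codimension one -/
def ConnectedInCodimOne {n d : ℕ} (A : PolyhedralComplex n d) : Prop :=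
  ∀ σ σ', dim (A.cell σ) = d → dim (A.cell σ') = d →
    Relation.ReflTransGen (fun a b => dim (A.cell b) = d ∧ Adjacent A a b) σ σ'

/-- irreducible: every (real valued) balanced weight function is a multiple of the given one -/
def IsIrreducible {n d : ℕ} (A : BalancedComplex n d) : Prop :=
  ∀ w : A.ι → ℝ, IsBalanced A.toPolyhedralComplex w →
    ∃ c : ℝ, ∀ σ, dim (A.cell σ) = d → w σ = c * A.weight σ

/-! ### The data of the fan -/

/-- the rays -/
def v : Fin 8 → Fin 4 → ℤ :=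
  ![![1, 1, 0, 0], ![0, -1, 0, 0], ![1, 0, 1, 0], ![-1, 0, -1, 0], ![0, 0, 1, 1], ![0, 0, 0, -1],
    ![0, 0, -1, 0], ![-1, 0, 0, 0]]

/-- the cells of the fan: index sets of rays -/
def faces : Fin 20 → Finset (Fin 8) :=
  ![∅, {0}, {1}, {2}, {3}, {4}, {5}, {6}, {7}, {1, 2}, {0, 2}, {0, 7}, {1, 7}, {2, 4}, {2, 5}, {0, 6}, {1, 6}, {3, 4}, {3, 5}, {3, 6}]
/-- dual functionals -/
def D : Fin 20 → Fin 8 → Fin 4 → ℤ :=
  ![![![0, 0, 0, 0], ![0, 0, 0, 0], ![0, 0, 0, 0], ![0, 0, 0, 0], ![0, 0, 0, 0], ![0, 0, 0, 0], ![0, 0, 0, 0], ![0, 0, 0, 0]],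
    ![![0, 1, 0, 0], ![0, 0, 0, 0], ![0, 0, 0, 0], ![0, 0, 0, 0], ![0, 0, 0, 0], ![0, 0, 0, 0], ![0, 0, 0, 0], ![0, 0, 0, 0]],
    ![![0, 0, 0, 0], ![0, -1, 0, 0], ![0, 0, 0, 0], ![0, 0, 0, 0], ![0, 0, 0, 0], ![0, 0, 0, 0], ![0, 0, 0, 0], ![0, 0, 0, 0]],
    ![![0, 0, 0, 0], ![0, 0, 0, 0], ![0, 0, 1, 0], ![0, 0, 0, 0], ![0, 0, 0, 0], ![0, 0, 0, 0], ![0, 0, 0, 0], ![0, 0, 0, 0]],
    ![![0, 0, 0, 0], ![0, 0, 0, 0], ![0, 0, 0, 0], ![0, 0, -1, 0], ![0, 0, 0, 0], ![0, 0, 0, 0], ![0, 0, 0, 0], ![0, 0, 0, 0]],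
    ![![0, 0, 0, 0], ![0, 0, 0, 0], ![0, 0, 0, 0], ![0, 0, 0, 0], ![0, 0, 0, 1], ![0, 0, 0, 0], ![0, 0, 0, 0], ![0, 0, 0, 0]],
    ![![0, 0, 0, 0], ![0, 0, 0, 0], ![0, 0, 0, 0], ![0, 0, 0, 0], ![0, 0, 0, 0], ![0, 0, 0, -1], ![0, 0, 0, 0], ![0, 0, 0, 0]],
    ![![0, 0, 0, 0], ![0, 0, 0, 0], ![0, 0, 0, 0], ![0, 0, 0, 0], ![0, 0, 0, 0], ![0, 0, 0, 0], ![0, 0, -1, 0], ![0, 0, 0, 0]],
    ![![0, 0, 0, 0], ![0, 0, 0, 0], ![0, 0, 0, 0], ![0, 0, 0, 0], ![0, 0, 0, 0], ![0, 0, 0, 0], ![0, 0, 0, 0], ![-1, 0, 0, 0]],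
    ![![0, 0, 0, 0], ![0, -1, 0, 0], ![0, 0, 1, 0], ![0, 0, 0, 0], ![0, 0, 0, 0], ![0, 0, 0, 0], ![0, 0, 0, 0], ![0, 0, 0, 0]],
    ![![0, 1, 0, 0], ![0, 0, 0, 0], ![0, 0, 1, 0], ![0, 0, 0, 0], ![0, 0, 0, 0], ![0, 0, 0, 0], ![0, 0, 0, 0], ![0, 0, 0, 0]],
    ![![0, 1, 0, 0], ![0, 0, 0, 0], ![0, 0, 0, 0], ![0, 0, 0, 0], ![0, 0, 0, 0], ![0, 0, 0, 0], ![0, 0, 0, 0], ![-1, 1, 0, 0]],
    ![![0, 0, 0, 0], ![0, -1, 0, 0], ![0, 0, 0, 0], ![0, 0, 0, 0], ![0, 0, 0, 0], ![0, 0, 0, 0], ![0, 0, 0, 0], ![-1, 0, 0, 0]],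
    ![![0, 0, 0, 0], ![0, 0, 0, 0], ![0, 0, 1, -1], ![0, 0, 0, 0], ![0, 0, 0, 1], ![0, 0, 0, 0], ![0, 0, 0, 0], ![0, 0, 0, 0]],
    ![![0, 0, 0, 0], ![0, 0, 0, 0], ![0, 0, 1, 0], ![0, 0, 0, 0], ![0, 0, 0, 0], ![0, 0, 0, -1], ![0, 0, 0, 0], ![0, 0, 0, 0]],
    ![![0, 1, 0, 0], ![0, 0, 0, 0], ![0, 0, 0, 0], ![0, 0, 0, 0], ![0, 0, 0, 0], ![0, 0, 0, 0], ![0, 0, -1, 0], ![0, 0, 0, 0]],
    ![![0, 0, 0, 0], ![0, -1, 0, 0], ![0, 0, 0, 0], ![0, 0, 0, 0], ![0, 0, 0, 0], ![0, 0, 0, 0], ![0, 0, -1, 0], ![0, 0, 0, 0]],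
    ![![0, 0, 0, 0], ![0, 0, 0, 0], ![0, 0, 0, 0], ![0, 0, -1, 1], ![0, 0, 0, 1], ![0, 0, 0, 0], ![0, 0, 0, 0], ![0, 0, 0, 0]],
    ![![0, 0, 0, 0], ![0, 0, 0, 0], ![0, 0, 0, 0], ![0, 0, -1, 0], ![0, 0, 0, 0], ![0, 0, 0, -1], ![0, 0, 0, 0], ![0, 0, 0, 0]],
    ![![0, 0, 0, 0], ![0, 0, 0, 0], ![0, 0, 0, 0], ![-1, 0, 0, 0], ![0, 0, 0, 0], ![0, 0, 0, 0], ![1, 0, -1, 0], ![0, 0, 0, 0]]]
/-- equations of the linear hulls -/
def K : Fin 20 → Fin 4 → Fin 4 → ℤ :=
  ![![![1, 0, 0, 0], ![0, 1, 0, 0], ![0, 0, 1, 0], ![0, 0, 0, 1]],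
    ![![1, -1, 0, 0], ![0, 0, 1, 0], ![0, 0, 0, 1], ![0, 0, 0, 0]],
    ![![1, 0, 0, 0], ![0, 0, 1, 0], ![0, 0, 0, 1], ![0, 0, 0, 0]],
    ![![1, 0, -1, 0], ![0, 1, 0, 0], ![0, 0, 0, 1], ![0, 0, 0, 0]],
    ![![1, 0, -1, 0], ![0, 1, 0, 0], ![0, 0, 0, 1], ![0, 0, 0, 0]],
    ![![1, 0, 0, 0], ![0, 1, 0, 0], ![0, 0, 1, -1], ![0, 0, 0, 0]],
    ![![1, 0, 0, 0], ![0, 1, 0, 0], ![0, 0, 1, 0], ![0, 0, 0, 0]],
    ![![1, 0, 0, 0], ![0, 1, 0, 0], ![0, 0, 0, 1], ![0, 0, 0, 0]],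
    ![![0, 1, 0, 0], ![0, 0, 1, 0], ![0, 0, 0, 1], ![0, 0, 0, 0]],
    ![![1, 0, -1, 0], ![0, 0, 0, 1], ![0, 0, 0, 0], ![0, 0, 0, 0]],
    ![![1, -1, -1, 0], ![0, 0, 0, 1], ![0, 0, 0, 0], ![0, 0, 0, 0]],
    ![![0, 0, 1, 0], ![0, 0, 0, 1], ![0, 0, 0, 0], ![0, 0, 0, 0]],
    ![![0, 0, 1, 0], ![0, 0, 0, 1], ![0, 0, 0, 0], ![0, 0, 0, 0]],
    ![![1, 0, -1, 1], ![0, 1, 0, 0], ![0, 0, 0, 0], ![0, 0, 0, 0]],
    ![![1, 0, -1, 0], ![0, 1, 0, 0], ![0, 0, 0, 0], ![0, 0, 0, 0]],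
    ![![1, -1, 0, 0], ![0, 0, 0, 1], ![0, 0, 0, 0], ![0, 0, 0, 0]],
    ![![1, 0, 0, 0], ![0, 0, 0, 1], ![0, 0, 0, 0], ![0, 0, 0, 0]],
    ![![1, 0, -1, 1], ![0, 1, 0, 0], ![0, 0, 0, 0], ![0, 0, 0, 0]],
    ![![1, 0, -1, 0], ![0, 1, 0, 0], ![0, 0, 0, 0], ![0, 0, 0, 0]],
    ![![0, 1, 0, 0], ![0, 0, 0, 1], ![0, 0, 0, 0], ![0, 0, 0, 0]]]
/-- complementary vectors -/
def W : Fin 20 → Fin 4 → Fin 4 → ℤ :=
  ![![![1, 0, 0, 0], ![0, 1, 0, 0], ![0, 0, 1, 0], ![0, 0, 0, 1]],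
    ![![1, 0, 0, 0], ![0, 0, 1, 0], ![0, 0, 0, 1], ![0, 0, 0, 0]],
    ![![1, 0, 0, 0], ![0, 0, 1, 0], ![0, 0, 0, 1], ![0, 0, 0, 0]],
    ![![1, 0, 0, 0], ![0, 1, 0, 0], ![0, 0, 0, 1], ![0, 0, 0, 0]],
    ![![1, 0, 0, 0], ![0, 1, 0, 0], ![0, 0, 0, 1], ![0, 0, 0, 0]],
    ![![1, 0, 0, 0], ![0, 1, 0, 0], ![0, 0, 1, 0], ![0, 0, 0, 0]],
    ![![1, 0, 0, 0], ![0, 1, 0, 0], ![0, 0, 1, 0], ![0, 0, 0, 0]],
    ![![1, 0, 0, 0], ![0, 1, 0, 0], ![0, 0, 0, 1], ![0, 0, 0, 0]],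
    ![![0, 1, 0, 0], ![0, 0, 1, 0], ![0, 0, 0, 1], ![0, 0, 0, 0]],
    ![![1, 0, 0, 0], ![0, 0, 0, 1], ![0, 0, 0, 0], ![0, 0, 0, 0]],
    ![![1, 0, 0, 0], ![0, 0, 0, 1], ![0, 0, 0, 0], ![0, 0, 0, 0]],
    ![![0, 0, 1, 0], ![0, 0, 0, 1], ![0, 0, 0, 0], ![0, 0, 0, 0]],
    ![![0, 0, 1, 0], ![0, 0, 0, 1], ![0, 0, 0, 0], ![0, 0, 0, 0]],
    ![![1, 0, 0, 0], ![0, 1, 0, 0], ![0, 0, 0, 0], ![0, 0, 0, 0]],
    ![![1, 0, 0, 0], ![0, 1, 0, 0], ![0, 0, 0, 0], ![0, 0, 0, 0]],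
    ![![1, 0, 0, 0], ![0, 0, 0, 1], ![0, 0, 0, 0], ![0, 0, 0, 0]],
    ![![1, 0, 0, 0], ![0, 0, 0, 1], ![0, 0, 0, 0], ![0, 0, 0, 0]],
    ![![1, 0, 0, 0], ![0, 1, 0, 0], ![0, 0, 0, 0], ![0, 0, 0, 0]],
    ![![1, 0, 0, 0], ![0, 1, 0, 0], ![0, 0, 0, 0], ![0, 0, 0, 0]],
    ![![0, 1, 0, 0], ![0, 0, 0, 1], ![0, 0, 0, 0], ![0, 0, 0, 0]]]

theorem hD : ∀ k : Fin 20, ∀ i ∈ faces k, ∀ j ∈ faces k,
    ∑ l, D k i l * v j l = if i = j then 1 else 0 := by decide +kernel

theorem hK : ∀ k : Fin 20, ∀ m : Fin 4, ∀ j ∈ faces k, ∑ l, K k m l * v j l = 0 := by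
  decide +kernel

theorem hI : ∀ k : Fin 20, ∀ j l : Fin 4,
    ∑ i ∈ faces k, v i j * D k i l + ∑ m, W k m j * K k m l = if j = l then 1 else 0 := by
  decide +kernel

theorem faces_inj : Function.Injective faces := by
  intro a b
  revert a b
  decide +kernel

theorem faces_sub : ∀ k : Fin 20, ∀ t ∈ (faces k).powerset, ∃ l, faces l = t := by
  decide +kernel

theorem faces_pure : ∀ k : Fin 20, ∃ l, faces k ⊆ faces l ∧ (faces l).card = 2 := by
  decide +kernel

theorem faces_card : ∀ k : Fin 20, (faces k).card ≤ 2 := by decide +kernel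

theorem faces_not : ∀ k : Fin 20, ¬ (0 ∈ faces k ∧ 1 ∈ faces k) ∧ ¬ (4 ∈ faces k ∧ 5 ∈ faces k) ∧
    ¬ (2 ∈ faces k ∧ 3 ∈ faces k) ∧ ¬ (2 ∈ faces k ∧ 7 ∈ faces k) ∧
    ¬ (2 ∈ faces k ∧ 6 ∈ faces k) ∧ ¬ (3 ∈ faces k ∧ 7 ∈ faces k) ∧
    ¬ (6 ∈ faces k ∧ 7 ∈ faces k) := by decide +kernel

/-- nonnegative combinations of the rays -/
noncomputable def comb (c : Fin 8 → ℝ) : Fin 4 → ℝ := ∑ i, c i • toReal (v i)

theorem comb_apply (c : Fin 8 → ℝ) (j : Fin 4) : comb c j = ∑ i, c i * (v i j : ℝ) := by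
  simp [comb, Finset.sum_apply, toReal]

theorem comb_eq (c : Fin 8 → ℝ) : comb c 0 = c 0 + c 2 - c 3 - c 7 ∧ comb c 1 = c 0 - c 1 ∧
    comb c 2 = c 2 - c 3 + c 4 - c 6 ∧ comb c 3 = c 4 - c 5 := by
  simp only [comb_apply, Fin.sum_univ_succ, Fin.sum_univ_zero]
  simp [v]
  refine ⟨?_, ?_, ?_, ?_⟩ <;> ring

/-- the cone spanned by the rays in `s` -/
def cone (s : Finset (Fin 8)) : Set (Fin 4 → ℝ) :=
  {x | ∃ c : Fin 8 → ℝ, (∀ i, 0 ≤ c i) ∧ (∀ i, i ∉ s → c i = 0) ∧ comb c = x}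

theorem uniq {k l : Fin 20} {c c' : Fin 8 → ℝ} (hc : ∀ i, 0 ≤ c i) (hc' : ∀ i, 0 ≤ c' i)
    (hs : ∀ i, i ∉ faces k → c i = 0) (hs' : ∀ i, i ∉ faces l → c' i = 0)
    (h : comb c = comb c') : c = c' := by
  have key : ∀ (m : Fin 20) (d : Fin 8 → ℝ), (∀ i, i ∉ faces m → d i = 0) →
      (d 0 = 0 ∨ d 1 = 0) ∧ (d 4 = 0 ∨ d 5 = 0) ∧ (d 2 = 0 ∨ d 3 = 0) ∧ (d 2 = 0 ∨ d 7 = 0) ∧
      (d 2 = 0 ∨ d 6 = 0) ∧ (d 3 = 0 ∨ d 7 = 0) ∧ (d 6 = 0 ∨ d 7 = 0) := by
    intro m d hd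
    have aux : ∀ a b : Fin 8, ¬ (a ∈ faces m ∧ b ∈ faces m) → d a = 0 ∨ d b = 0 := by
      intro a b hab
      by_cases ha : a ∈ faces m
      · right
        exact hd b fun hb => hab ⟨ha, hb⟩
      · left
        exact hd a ha
    obtain ⟨h1, h2, h3, h4, h5, h6, h7⟩ := faces_not m
    exact ⟨aux _ _ h1, aux _ _ h2, aux _ _ h3, aux _ _ h4, aux _ _ h5, aux _ _ h6, aux _ _ h7⟩
  obtain ⟨p1, p2, p3, p4, p5, p6, p7⟩ := key k c hs
  obtain ⟨q1, q2, q3, q4, q5, q6, q7⟩ := key l c' hs'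
  obtain ⟨e0, e1, e2, e3⟩ := comb_eq c
  obtain ⟨f0, f1, f2, f3⟩ := comb_eq c'
  rw [h] at e0 e1 e2 e3
  have g0 := e0.symm.trans f0
  have g1 := e1.symm.trans f1
  have g2 := e2.symm.trans f2
  have g3 := e3.symm.trans f3
  have n0 := hc 0
  have n1 := hc 1
  have n2 := hc 2
  have n3 := hc 3
  have n4 := hc 4
  have n5 := hc 5
  have n6 := hc 6
  have n7 := hc 7
  have m0 := hc' 0
  have m1 := hc' 1
  have m2 := hc' 2
  have m3 := hc' 3
  have m4 := hc' 4
  have m5 := hc' 5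
  have m6 := hc' 6
  have m7 := hc' 7
  have r0 : c 0 = c' 0 := by
    rcases p1 with p | p <;> rcases q1 with q | q <;> linarith
  have r1 : c 1 = c' 1 := by linarith
  have r4 : c 4 = c' 4 := by
    rcases p2 with p | p <;> rcases q2 with q | q <;> linarith
  have r5 : c 5 = c' 5 := by linarith
  have r2 : c 2 = c' 2 := by
    rcases p3 with p | p
    · rcases q3 with q | q
      · rw [p, q]
      · rcases q4 with q' | q'
        · rw [p, q']
        · linarith
    · rcases p4 with p' | p'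
      · rcases q3 with q | q
        · rw [p', q]
        · rcases q4 with q' | q'
          · rw [p', q']
          · linarith
      · rcases q3 with q | q
        · linarith
        · rcases q4 with q' | q'
          · linarith
          · linarith
  have r37 : c 3 + c 7 = c' 3 + c' 7 := by linarith
  have r36 : c 3 + c 6 = c' 3 + c' 6 := by linarith
  have r3 : c 3 = c' 3 := by
    rcases p6 with p | p
    · rcases q6 with q | q
      · rw [p, q]
      · rcases p7 with p' | p' <;> rcases q7 with q' | q' <;> linarith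
    · rcases q6 with q | q
      · rcases p7 with p' | p' <;> rcases q7 with q' | q' <;> linarith
      · linarith
  have r6 : c 6 = c' 6 := by linarith
  have r7 : c 7 = c' 7 := by linarith
  funext i
  fin_cases i
  · exact r0
  · exact r1
  · exact r2
  · exact r3
  · exact r4
  · exact r5
  · exact r6
  · exact r7

/-- application of an integer functional -/
noncomputable def ap (a : Fin 4 → ℤ) (x : Fin 4 → ℝ) : ℝ := ∑ j, (a j : ℝ) * x j

theorem ap_comb (a : Fin 4 → ℤ) (c : Fin 8 → ℝ) :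
    ap a (comb c) = ∑ i, c i * ((∑ j, a j * v i j : ℤ) : ℝ) := by
  unfold ap
  simp only [comb_apply, Finset.mul_sum]
  rw [Finset.sum_comm]
  refine Finset.sum_congr rfl fun i _ => ?_
  push_cast
  rw [Finset.mul_sum]
  refine Finset.sum_congr rfl fun j _ => ?_
  ring

theorem ap_D {k : Fin 20} {c : Fin 8 → ℝ} (hs : ∀ i, i ∉ faces k → c i = 0) {i : Fin 8}
    (hi : i ∈ faces k) : ap (D k i) (comb c) = c i := by
  rw [ap_comb]
  rw [Finset.sum_eq_single i]
  · rw [hD k i hi i hi]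
    simp
  · intro j _ hj
    by_cases h : j ∈ faces k
    · rw [hD k i hi j h, if_neg (Ne.symm hj)]
      simp
    · rw [hs j h, zero_mul]
  · intro h
    exact absurd (Finset.mem_univ _) h

theorem ap_K {k : Fin 20} {c : Fin 8 → ℝ} (hs : ∀ i, i ∉ faces k → c i = 0) (m : Fin 4) :
    ap (K k m) (comb c) = 0 := by
  rw [ap_comb]
  refine Finset.sum_eq_zero fun j _ => ?_
  by_cases h : j ∈ faces k
  · rw [hK k m j h]
    simp
  · rw [hs j h, zero_mul]

theorem recover {k : Fin 20} {x : Fin 4 → ℝ} (hx : ∀ m, ap (K k m) x = 0) :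
    comb (fun i => if i ∈ faces k then ap (D k i) x else 0) = x := by
  funext j
  rw [comb_apply]
  have h1 : x j = ∑ l, (if j = l then (1 : ℤ) else 0 : ℤ) * x l := by
    simp
  have h2 : ∀ l, ((if j = l then (1 : ℤ) else 0 : ℤ) : ℝ) =
      ∑ i ∈ faces k, (v i j : ℝ) * (D k i l : ℝ) + ∑ m, (W k m j : ℝ) * (K k m l : ℝ) := by
    intro l
    rw [← hI k j l]
    push_cast
    rfl
  rw [h1]
  simp_rw [h2, add_mul, Finset.sum_add_distrib, Finset.sum_mul]
  rw [Finset.sum_comm (s := Finset.univ) (t := faces k),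
    Finset.sum_comm (s := Finset.univ) (t := (Finset.univ : Finset (Fin 4)))]
  have h3 : ∑ m, ∑ l, (W k m j : ℝ) * (K k m l : ℝ) * x l = 0 := by
    refine Finset.sum_eq_zero fun m _ => ?_
    have : ∑ l, (W k m j : ℝ) * (K k m l : ℝ) * x l = (W k m j : ℝ) * ap (K k m) x := by
      unfold ap
      rw [Finset.mul_sum]
      exact Finset.sum_congr rfl fun l _ => by ring
    rw [this, hx m, mul_zero]
  rw [h3, add_zero]
  simp_rw [ite_mul, zero_mul]
  rw [← Finset.sum_filter]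
  refine Finset.sum_congr (by ext; simp) fun i _ => ?_
  unfold ap
  rw [Finset.sum_mul]
  exact Finset.sum_congr rfl fun l _ => by ring

theorem mem_cone_iff {k : Fin 20} {x : Fin 4 → ℝ} :
    x ∈ cone (faces k) ↔ (∀ i ∈ faces k, 0 ≤ ap (D k i) x) ∧ ∀ m, ap (K k m) x = 0 := by
  constructor
  · rintro ⟨c, hc, hs, rfl⟩
    refine ⟨fun i hi => ?_, fun m => ap_K hs m⟩
    rw [ap_D hs hi]
    exact hc i
  · rintro ⟨h1, h2⟩
    refine ⟨_, fun i => ?_, fun i hi => ?_, recover h2⟩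
    · by_cases hi : i ∈ faces k
      · simp only [if_pos hi]
        exact h1 i hi
      · simp only [if_neg hi]
        exact le_rfl
    · simp only [if_neg hi]

theorem comb_add (c c' : Fin 8 → ℝ) : comb (c + c') = comb c + comb c' := by
  unfold comb
  rw [← Finset.sum_add_distrib]
  exact Finset.sum_congr rfl fun i _ => by rw [Pi.add_apply, add_smul]

theorem comb_smul (r : ℝ) (c : Fin 8 → ℝ) : comb (r • c) = r • comb c := by
  unfold comb
  rw [Finset.smul_sum]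
  exact Finset.sum_congr rfl fun i _ => by rw [Pi.smul_apply, smul_assoc]

theorem comb_single (i : Fin 8) : comb (Pi.single i 1) = toReal (v i) := by
  unfold comb
  rw [Finset.sum_eq_single i]
  · simp
  · intro j _ hj
    rw [Pi.single_eq_of_ne hj, zero_smul]
  · intro h
    exact absurd (Finset.mem_univ _) h

theorem comb_zero : comb 0 = 0 := by
  unfold comb
  simp

/-- the linear space spanned by the rays in `s` -/
def Lin (s : Finset (Fin 8)) : Submodule ℝ (Fin 4 → ℝ) where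
  carrier := {x | ∃ c : Fin 8 → ℝ, (∀ i, i ∉ s → c i = 0) ∧ comb c = x}
  add_mem' := by
    rintro _ _ ⟨c, hc, rfl⟩ ⟨c', hc', rfl⟩
    refine ⟨c + c', fun i hi => ?_, comb_add c c'⟩
    rw [Pi.add_apply, hc i hi, hc' i hi, add_zero]
  zero_mem' := ⟨0, fun i _ => rfl, comb_zero⟩
  smul_mem' := by
    rintro r _ ⟨c, hc, rfl⟩
    refine ⟨r • c, fun i hi => ?_, comb_smul r c⟩
    rw [Pi.smul_apply, hc i hi, smul_zero]

theorem zero_mem_cone (s : Finset (Fin 8)) : (0 : Fin 4 → ℝ) ∈ cone s :=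
  ⟨0, fun _ => le_rfl, fun _ _ => rfl, comb_zero⟩

theorem ray_mem_cone {s : Finset (Fin 8)} {i : Fin 8} (hi : i ∈ s) : toReal (v i) ∈ cone s := by
  refine ⟨Pi.single i 1, fun j => ?_, fun j hj => ?_, comb_single i⟩
  · by_cases h : j = i
    · rw [h, Pi.single_eq_same]
      exact zero_le_one
    · rw [Pi.single_eq_of_ne h]
  · rw [Pi.single_eq_of_ne]
    rintro rfl
    exact hj hi

theorem vectorSpan_cone (s : Finset (Fin 8)) : vectorSpan ℝ (cone s) = Lin s := by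
  apply le_antisymm
  · rw [vectorSpan_def, Submodule.span_le]
    rintro _ ⟨_, ⟨c, -, hs, rfl⟩, _, ⟨c', -, hs', rfl⟩, rfl⟩
    refine (Lin s).sub_mem ⟨c, hs, rfl⟩ ⟨c', hs', rfl⟩
  · rintro _ ⟨c, hs, rfl⟩
    unfold comb
    refine Submodule.sum_mem _ fun i _ => ?_
    by_cases hi : i ∈ s
    · refine Submodule.smul_mem _ _ ?_
      have h := vsub_mem_vectorSpan ℝ (ray_mem_cone hi) (zero_mem_cone s)
      simpa using h
    · rw [hs i hi, zero_smul]
      exact Submodule.zero_mem _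

theorem linInd (k : Fin 20) :
    LinearIndependent ℝ (fun i : {i // i ∈ faces k} => toReal (v i)) := by
  classical
  rw [Fintype.linearIndependent_iff]
  intro g hg i
  let c : Fin 8 → ℝ := fun j => if h : j ∈ faces k then g ⟨j, h⟩ else 0
  have hs : ∀ j, j ∉ faces k → c j = 0 := fun j hj => by simp only [c, dif_neg hj]
  have h0 : comb c = 0 := by
    rw [← hg]
    unfold comb
    rw [← Finset.sum_subset (Finset.subset_univ (faces k)), ← Finset.sum_coe_sort (faces k)]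
    · refine Finset.sum_congr rfl fun j _ => ?_
      simp only [c, dif_pos j.2]
    · intro j _ hj
      rw [hs j hj, zero_smul]
  have h1 := ap_D hs i.2
  rw [h0] at h1
  have h2 : ap (D k i) 0 = 0 := by simp [ap]
  rw [h2] at h1
  simp only [c, dif_pos i.2] at h1
  exact h1.symm

theorem Lin_eq_span (s : Finset (Fin 8)) :
    Lin s = Submodule.span ℝ (range fun i : {i // i ∈ s} => toReal (v i)) := by
  apply le_antisymm
  · rintro _ ⟨c, hs, rfl⟩
    unfold comb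
    refine Submodule.sum_mem _ fun i _ => ?_
    by_cases hi : i ∈ s
    · exact Submodule.smul_mem _ _ (Submodule.subset_span ⟨⟨i, hi⟩, rfl⟩)
    · rw [hs i hi, zero_smul]
      exact Submodule.zero_mem _
  · rw [Submodule.span_le]
    rintro _ ⟨⟨i, hi⟩, rfl⟩
    obtain ⟨c, -, hs, h⟩ := ray_mem_cone hi
    exact ⟨c, hs, h⟩

theorem dim_cone (k : Fin 20) : dim (cone (faces k)) = (faces k).card := by
  unfold dim
  rw [vectorSpan_cone, Lin_eq_span, finrank_span_eq_card (linInd k)]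
  simp

theorem rational_cone (k : Fin 20) : IsRationalPolyhedron (cone (faces k)) := by
  classical
  refine ⟨((faces k).image fun i => ((-D k i, 0) : (Fin 4 → ℤ) × ℝ)) ∪
    ((Finset.univ.image fun m : Fin 4 => ((K k m, 0) : (Fin 4 → ℤ) × ℝ)) ∪
      (Finset.univ.image fun m : Fin 4 => ((-K k m, 0) : (Fin 4 → ℤ) × ℝ))), ?_⟩
  have hneg : ∀ (a : Fin 4 → ℤ) (x : Fin 4 → ℝ), ∑ j, ((-a) j : ℝ) * x j = -ap a x := by
    intro a x
    unfold ap
    rw [← Finset.sum_neg_distrib]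
    exact Finset.sum_congr rfl fun j _ => by rw [Pi.neg_apply]; push_cast; ring
  ext x
  rw [mem_cone_iff]
  constructor
  · rintro ⟨h1, h2⟩ a ha
    rw [Finset.mem_union, Finset.mem_union, Finset.mem_image, Finset.mem_image,
      Finset.mem_image] at ha
    rcases ha with ⟨i, hi, rfl⟩ | ⟨m, -, rfl⟩ | ⟨m, -, rfl⟩
    · have := h1 i hi
      simp only [Pi.neg_apply, Int.cast_neg, neg_mul, Finset.sum_neg_distrib]
      unfold ap at this
      linarith
    · exact (h2 m).le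
    · have := h2 m
      simp only [Pi.neg_apply, Int.cast_neg, neg_mul, Finset.sum_neg_distrib]
      unfold ap at this
      linarith
  · intro h
    constructor
    · intro i hi
      have := h (-D k i, 0) (by
        rw [Finset.mem_union, Finset.mem_image]
        exact Or.inl ⟨i, hi, rfl⟩)
      simp only [Pi.neg_apply, Int.cast_neg, neg_mul, Finset.sum_neg_distrib] at this
      unfold ap
      linarith
    · intro m
      have h1 := h (K k m, 0) (by
        rw [Finset.mem_union, Finset.mem_union, Finset.mem_image, Finset.mem_image]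
        exact Or.inr (Or.inl ⟨m, Finset.mem_univ _, rfl⟩))
      have h2 := h (-K k m, 0) (by
        rw [Finset.mem_union, Finset.mem_union, Finset.mem_image, Finset.mem_image,
          Finset.mem_image]
        exact Or.inr (Or.inr ⟨m, Finset.mem_univ _, rfl⟩))
      simp only [Pi.neg_apply, Int.cast_neg, neg_mul, Finset.sum_neg_distrib] at h2
      simp only at h1
      unfold ap
      linarith

/-- the faces of a cone of the fan are the cones spanned by subsets of the rays -/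
theorem face_cone {s : Finset (Fin 8)} {F : Set (Fin 4 → ℝ)} (hF : IsFace F (cone s))
    (hne : F.Nonempty) : ∃ t ⊆ s, cone t = F := by
  classical
  obtain ⟨u, c, h1, rfl⟩ := hF
  obtain ⟨x, hx, hxc⟩ := hne
  have hc0 : 0 ≤ c := by
    have := h1 0 (zero_mem_cone s)
    simpa using this
  have hc1 : c ≤ 0 := by
    obtain ⟨d, hd, hs, rfl⟩ := hx
    have h2 : (2 : ℝ) • comb d ∈ cone s := by
      refine ⟨(2 : ℝ) • d, fun i => ?_, fun i hi => ?_, comb_smul 2 d⟩
      · exact mul_nonneg (by norm_num) (hd i)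
      · rw [Pi.smul_apply, hs i hi, smul_zero]
    have h3 := h1 _ h2
    have h4 : ∑ j, u j * ((2 : ℝ) • comb d) j = 2 * c := by
      rw [← hxc, Finset.mul_sum]
      exact Finset.sum_congr rfl fun j _ => by
        rw [Pi.smul_apply, smul_eq_mul]; ring
    rw [h4] at h3
    linarith
  have hc : c = 0 := le_antisymm hc1 hc0
  subst hc
  have hray : ∀ i ∈ s, ∑ j, u j * toReal (v i) j ≤ 0 := fun i hi => h1 _ (ray_mem_cone hi)
  have hval : ∀ d : Fin 8 → ℝ, ∑ j, u j * comb d j = ∑ i, d i * ∑ j, u j * toReal (v i) j := by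
    intro d
    simp only [comb_apply, Finset.mul_sum]
    rw [Finset.sum_comm]
    refine Finset.sum_congr rfl fun i _ => Finset.sum_congr rfl fun j _ => ?_
    simp only [toReal]
    ring
  refine ⟨s.filter fun i => ∑ j, u j * toReal (v i) j = 0, Finset.filter_subset _ _, ?_⟩
  ext y
  constructor
  · rintro ⟨d, hd, hs, rfl⟩
    refine ⟨⟨d, hd, fun i hi => hs i fun h => hi (Finset.mem_filter.1 h).1, rfl⟩, ?_⟩
    rw [hval]
    refine Finset.sum_eq_zero fun i _ => ?_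
    by_cases h : i ∈ s.filter fun i => ∑ j, u j * toReal (v i) j = 0
    · rw [(Finset.mem_filter.1 h).2, mul_zero]
    · rw [hs i h, zero_mul]
  · rintro ⟨⟨d, hd, hs, rfl⟩, hy⟩
    refine ⟨d, hd, fun i hi => ?_, rfl⟩
    by_cases his : i ∈ s
    · rw [hval] at hy
      have h5 : ∀ i ∈ (Finset.univ : Finset (Fin 8)), d i * ∑ j, u j * toReal (v i) j ≤ 0 := by
        intro i _
        by_cases h : i ∈ s
        · exact mul_nonpos_of_nonneg_of_nonpos (hd i) (hray i h)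
        · rw [hs i h, zero_mul]
      have h6 := (Finset.sum_eq_zero_iff_of_nonpos h5).1 hy i (Finset.mem_univ _)
      rcases mul_eq_zero.1 h6 with h7 | h7
      · exact h7
      · exact absurd (Finset.mem_filter.2 ⟨his, h7⟩) hi
    · exact hs i his

theorem cone_face {k : Fin 20} {t : Finset (Fin 8)} (ht : t ⊆ faces k) :
    IsFace (cone t) (cone (faces k)) := by
  classical
  refine ⟨fun j => -∑ i ∈ faces k \ t, (D k i j : ℝ), 0, ?_, ?_⟩
  all_goals
    have hval : ∀ d : Fin 8 → ℝ, (∀ i, i ∉ faces k → d i = 0) →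
        ∑ j, (-∑ i ∈ faces k \ t, (D k i j : ℝ)) * comb d j = -∑ i ∈ faces k \ t, d i := by
      intro d hd
      have h1 : ∀ i ∈ faces k \ t, d i = ∑ j, (D k i j : ℝ) * comb d j := fun i hi =>
        (ap_D hd (Finset.mem_sdiff.1 hi).1).symm
      rw [Finset.sum_congr rfl h1, Finset.sum_comm, ← Finset.sum_neg_distrib]
      refine Finset.sum_congr rfl fun j _ => ?_
      rw [neg_mul, Finset.sum_mul]
  · rintro _ ⟨d, hd, hs, rfl⟩
    rw [hval d hs]
    have := Finset.sum_nonneg fun i (_ : i ∈ faces k \ t) => hd i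
    linarith
  · ext y
    constructor
    · rintro ⟨d, hd, hs, rfl⟩
      have hs' : ∀ i, i ∉ faces k → d i = 0 := fun i hi => hs i fun h => hi (ht h)
      refine ⟨⟨d, hd, hs', rfl⟩, ?_⟩
      rw [hval d hs']
      rw [Finset.sum_eq_zero fun i hi => hs i (Finset.mem_sdiff.1 hi).2, neg_zero]
    · rintro ⟨⟨d, hd, hs, rfl⟩, hy⟩
      rw [hval d hs, neg_eq_zero] at hy
      have h6 := (Finset.sum_eq_zero_iff_of_nonneg fun i _ => hd i).1 hy
      refine ⟨d, hd, fun i hi => ?_, rfl⟩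
      by_cases h : i ∈ faces k
      · exact h6 i (Finset.mem_sdiff.2 ⟨h, hi⟩)
      · exact hs i h

theorem inter_cone (k l : Fin 20) :
    cone (faces k) ∩ cone (faces l) = cone (faces k ∩ faces l) := by
  ext x
  constructor
  · rintro ⟨⟨c, hc, hs, rfl⟩, ⟨c', hc', hs', h⟩⟩
    have h1 := uniq hc hc' hs hs' h.symm
    refine ⟨c, hc, fun i hi => ?_, rfl⟩
    by_cases hk : i ∈ faces k
    · rw [h1]
      exact hs' i fun hl => hi (Finset.mem_inter.2 ⟨hk, hl⟩)
    · exact hs i hk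
  · rintro ⟨c, hc, hs, rfl⟩
    exact ⟨⟨c, hc, fun i hi => hs i fun h => hi (Finset.mem_inter.1 h).1, rfl⟩,
      ⟨c, hc, fun i hi => hs i fun h => hi (Finset.mem_inter.1 h).2, rfl⟩⟩

theorem cone_mono {s t : Finset (Fin 8)} (h : s ⊆ t) : cone s ⊆ cone t := by
  rintro _ ⟨c, hc, hs, rfl⟩
  exact ⟨c, hc, fun i hi => hs i fun h' => hi (h h'), rfl⟩

theorem cone_subset_iff {k l : Fin 20} : cone (faces k) ⊆ cone (faces l) ↔ faces k ⊆ faces l := by
  constructor
  · intro h i hi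
    by_contra hl
    obtain ⟨c, hc, hs, he⟩ := ray_mem_cone hi
    obtain ⟨c', hc', hs', he'⟩ := h (ray_mem_cone hi)
    have h1 := uniq hc hc' hs hs' (he.trans he'.symm)
    have h2 := ap_D hs hi
    have h3 : ap (D k i) (comb c) = ap (D k i) (toReal (v i)) := by rw [he]
    have h4 : ap (D k i) (toReal (v i)) = 1 := by
      have h5 := hD k i hi i hi
      rw [if_pos rfl] at h5
      unfold ap toReal
      exact_mod_cast h5
    rw [h3, h4] at h2
    rw [h1, hs' i hl] at h2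
    exact one_ne_zero h2
  · exact cone_mono

/-- the fan as a polyhedral complex -/
noncomputable def fanC : PolyhedralComplex 4 2 where
  ι := Fin 20
  cell k := cone (faces k)
  cell_injective := by
    intro k l h
    exact faces_inj (Finset.Subset.antisymm (cone_subset_iff.1 h.le) (cone_subset_iff.1 h.ge))
  cell_nonempty k := ⟨0, zero_mem_cone _⟩
  rational := rational_cone
  face_mem := by
    intro k F hF hne
    obtain ⟨t, ht, rfl⟩ := face_cone hF hne
    obtain ⟨l, hl⟩ := faces_sub k t (Finset.mem_powerset.2 ht)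
    exact ⟨l, by rw [hl]⟩
  inter_face := by
    intro k l _
    rw [inter_cone]
    exact cone_face Finset.inter_subset_left
  pure := by
    intro k
    obtain ⟨l, hl, hc⟩ := faces_pure k
    exact ⟨l, cone_mono hl, by rw [dim_cone, hc]⟩
  dim_le := by
    intro k
    rw [dim_cone]
    exact faces_card k

/-- first step of a path to the facet `9` -/
def pA : Fin 20 → Fin 20 := ![9, 9, 9, 9, 9, 9, 9, 9, 9, 9, 9, 10, 9, 9, 9, 10, 9, 13, 14, 15]
/-- second step of a path to the facet `9` -/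
def pB : Fin 20 → Fin 20 := ![9, 9, 9, 9, 9, 9, 9, 9, 9, 9, 9, 9, 9, 9, 9, 9, 9, 9, 9, 10]
/-- the normal vectors of the rays -/
def T : Fin 8 → Fin 20 → Fin 4 → ℤ :=
  ![![![0, 0, 0, 0], ![0, 0, 0, 0], ![0, 0, 0, 0], ![0, 0, 0, 0], ![0, 0, 0, 0], ![0, 0, 0, 0], ![0, 0, 0, 0], ![0, 0, 0, 0], ![0, 0, 0, 0], ![0, 0, 0, 0], ![1, 0, 1, 0], ![-1, 0, 0, 0], ![0, 0, 0, 0], ![0, 0, 0, 0], ![0, 0, 0, 0], ![0, 0, -1, 0], ![0, 0, 0, 0], ![0, 0, 0, 0], ![0, 0, 0, 0], ![0, 0, 0, 0]],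
    ![![0, 0, 0, 0], ![0, 0, 0, 0], ![0, 0, 0, 0], ![0, 0, 0, 0], ![0, 0, 0, 0], ![0, 0, 0, 0], ![0, 0, 0, 0], ![0, 0, 0, 0], ![0, 0, 0, 0], ![1, 0, 1, 0], ![0, 0, 0, 0], ![0, 0, 0, 0], ![-1, 0, 0, 0], ![0, 0, 0, 0], ![0, 0, 0, 0], ![0, 0, 0, 0], ![0, 0, -1, 0], ![0, 0, 0, 0], ![0, 0, 0, 0], ![0, 0, 0, 0]],
    ![![0, 0, 0, 0], ![0, 0, 0, 0], ![0, 0, 0, 0], ![0, 0, 0, 0], ![0, 0, 0, 0], ![0, 0, 0, 0], ![0, 0, 0, 0], ![0, 0, 0, 0], ![0, 0, 0, 0], ![0, -1, 0, 0], ![1, 1, 0, 0], ![0, 0, 0, 0], ![0, 0, 0, 0], ![0, 0, 1, 1], ![0, 0, 0, -1], ![0, 0, 0, 0], ![0, 0, 0, 0], ![0, 0, 0, 0], ![0, 0, 0, 0], ![0, 0, 0, 0]],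
    ![![0, 0, 0, 0], ![0, 0, 0, 0], ![0, 0, 0, 0], ![0, 0, 0, 0], ![0, 0, 0, 0], ![0, 0, 0, 0], ![0, 0, 0, 0], ![0, 0, 0, 0], ![0, 0, 0, 0], ![0, 0, 0, 0], ![0, 0, 0, 0], ![0, 0, 0, 0], ![0, 0, 0, 0], ![0, 0, 0, 0], ![0, 0, 0, 0], ![0, 0, 0, 0], ![0, 0, 0, 0], ![0, 0, 1, 1], ![0, 0, 0, -1], ![0, 0, -1, 0]],
    ![![0, 0, 0, 0], ![0, 0, 0, 0], ![0, 0, 0, 0], ![0, 0, 0, 0], ![0, 0, 0, 0], ![0, 0, 0, 0], ![0, 0, 0, 0], ![0, 0, 0, 0], ![0, 0, 0, 0], ![0, 0, 0, 0], ![0, 0, 0, 0], ![0, 0, 0, 0], ![0, 0, 0, 0], ![1, 0, 1, 0], ![0, 0, 0, 0], ![0, 0, 0, 0], ![0, 0, 0, 0], ![-1, 0, -1, 0], ![0, 0, 0, 0], ![0, 0, 0, 0]],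
    ![![0, 0, 0, 0], ![0, 0, 0, 0], ![0, 0, 0, 0], ![0, 0, 0, 0], ![0, 0, 0, 0], ![0, 0, 0, 0], ![0, 0, 0, 0], ![0, 0, 0, 0], ![0, 0, 0, 0], ![0, 0, 0, 0], ![0, 0, 0, 0], ![0, 0, 0, 0], ![0, 0, 0, 0], ![0, 0, 0, 0], ![1, 0, 1, 0], ![0, 0, 0, 0], ![0, 0, 0, 0], ![0, 0, 0, 0], ![-1, 0, -1, 0], ![0, 0, 0, 0]],
    ![![0, 0, 0, 0], ![0, 0, 0, 0], ![0, 0, 0, 0], ![0, 0, 0, 0], ![0, 0, 0, 0], ![0, 0, 0, 0], ![0, 0, 0, 0], ![0, 0, 0, 0], ![0, 0, 0, 0], ![0, 0, 0, 0], ![0, 0, 0, 0], ![0, 0, 0, 0], ![0, 0, 0, 0], ![0, 0, 0, 0], ![0, 0, 0, 0], ![1, 1, 0, 0], ![0, -1, 0, 0], ![0, 0, 0, 0], ![0, 0, 0, 0], ![-1, 0, -1, 0]],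
    ![![0, 0, 0, 0], ![0, 0, 0, 0], ![0, 0, 0, 0], ![0, 0, 0, 0], ![0, 0, 0, 0], ![0, 0, 0, 0], ![0, 0, 0, 0], ![0, 0, 0, 0], ![0, 0, 0, 0], ![0, 0, 0, 0], ![0, 0, 0, 0], ![1, 1, 0, 0], ![0, -1, 0, 0], ![0, 0, 0, 0], ![0, 0, 0, 0], ![0, 0, 0, 0], ![0, 0, 0, 0], ![0, 0, 0, 0], ![0, 0, 0, 0], ![0, 0, 0, 0]]]

theorem faces_path : ∀ k : Fin 20, (faces k).card = 2 →
    ((faces (pA k)).card = 2 ∧ ∃ t, (faces t).card = 1 ∧ faces t ⊆ faces k ∧
      faces t ⊆ faces (pA k)) ∧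
    ((faces (pB k)).card = 2 ∧ ∃ t, (faces t).card = 1 ∧ faces t ⊆ faces (pA k) ∧
      faces t ⊆ faces (pB k)) ∧
    ((faces 9).card = 2 ∧ ∃ t, (faces t).card = 1 ∧ faces t ⊆ faces (pB k) ∧
      faces t ⊆ faces 9) := by
  decide +kernel

theorem faces_T : ∀ (r : Fin 8) (t k : Fin 20) (j : Fin 4), faces t = {r} →
    (if (faces k).card = 2 ∧ faces t ⊆ faces k then ∑ i ∈ faces k \ faces t, v i j else 0) =
      T r k j := by
  decide +kernel

theorem faces_bal : ∀ (r : Fin 8) (j : Fin 4),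
    ∑ k, T r k j = (![0, 0, 1, 0, 0, 0, 1, -1] : Fin 8 → ℤ) r * v r j := by
  decide +kernel

theorem card_of_dim (k : Fin 20) (hk : dim (fanC.cell k) = 2) : (faces k).card = 2 :=
  (dim_cone k).symm.trans hk

theorem card_one {t : Fin 20} (h : dim (fanC.cell t) + 1 = 2) : ∃ r, faces t = {r} := by
  have h1 : dim (cone (faces t)) + 1 = 2 := h
  rw [dim_cone] at h1
  exact Finset.card_eq_one.1 (by omega)

theorem toReal_sum {α : Type*} (s : Finset α) (f : α → Fin 4 → ℤ) :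
    toReal (∑ i ∈ s, f i) = ∑ i ∈ s, toReal (f i) := by
  funext j
  simp [toReal, Finset.sum_apply]

/-- the normal vectors -/
theorem normal_vector {s t : Fin 20} {i : Fin 8} (hi : i ∈ faces s)
    (ht : faces t = (faces s).erase i) :
    IsNormalVector (cone (faces t)) (cone (faces s)) (v i) := by
  refine ⟨⟨0, zero_mem_cone _, 1, zero_lt_one, ?_⟩, ?_⟩
  · rw [one_smul, zero_add]
    exact ray_mem_cone hi
  · intro u hu
    rw [vectorSpan_cone] at hu
    obtain ⟨c, hs, hc⟩ := hu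
    refine ⟨∑ l, D s i l * u l, ?_⟩
    have h1 : c i = ((∑ l, D s i l * u l : ℤ) : ℝ) := by
      rw [← ap_D hs hi, hc]
      unfold ap toReal
      push_cast
      rfl
    rw [vectorSpan_cone]
    refine ⟨c + (-(c i)) • Pi.single i 1, fun j hj => ?_, ?_⟩
    · by_cases hji : j = i
      · subst hji
        simp
      · have hj' : j ∉ faces s := by
          rw [ht, Finset.mem_erase] at hj
          exact fun h => hj ⟨hji, h⟩
        rw [Pi.add_apply, hs j hj', Pi.smul_apply, Pi.single_eq_of_ne hji]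
        simp
    · rw [comb_add, comb_smul, comb_single, hc, h1]
      funext j
      simp [toReal]
      ring

theorem subset_single {k t : Fin 20} {r : Fin 8} (ht : faces t = {r})
    (hk : (faces k).card = 2) (hs : faces t ⊆ faces k) :
    ∃ i ∈ faces k, faces t = (faces k).erase i ∧ faces k \ faces t = {i} ∧ i ≠ r := by
  have hr : r ∈ faces k := hs (by rw [ht]; exact Finset.mem_singleton_self r)
  have h1 : ((faces k).erase r).card = 1 := by
    rw [Finset.card_erase_of_mem hr, hk]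
  obtain ⟨i, hi⟩ := Finset.card_eq_one.1 h1
  have hi' : i ∈ (faces k).erase r := by
    rw [hi]
    exact Finset.mem_singleton_self i
  have hir : i ≠ r := (Finset.mem_erase.1 hi').1
  have hik : i ∈ faces k := (Finset.mem_erase.1 hi').2
  refine ⟨i, hik, ?_, ?_, hir⟩
  · rw [ht]
    symm
    apply Finset.eq_of_superset_of_card_ge
    · intro j hj
      rw [Finset.mem_singleton] at hj
      subst hj
      exact Finset.mem_erase.2 ⟨hir.symm, hr⟩
    · rw [Finset.card_erase_of_mem hik, hk]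
      simp
  · rw [ht, ← hi]
    ext j
    simp [and_comm]

open Classical in
theorem sum_filter_eq {t : Fin 20} {r : Fin 8} (ht : faces t = {r}) (w : Fin 20 → ℝ)
    (j : Fin 4) :
    ∑ k ∈ Finset.univ.filter (fun k : Fin 20 => dim (cone (faces k)) = 2 ∧
      cone (faces t) ⊆ cone (faces k)), w k * ((∑ i ∈ faces k \ faces t, v i j : ℤ) : ℝ) =
      ∑ k, w k * (T r k j : ℝ) := by
  rw [Finset.sum_filter]
  refine Finset.sum_congr rfl fun k _ => ?_
  rw [← faces_T r t k j ht, dim_cone, cone_subset_iff]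
  split_ifs <;> simp

theorem fan_balanced : IsBalanced fanC fun _ => ((1 : ℕ) : ℝ) := by
  classical
  intro t ht
  obtain ⟨r, hr⟩ := card_one ht
  refine ⟨fun k => ∑ i ∈ faces k \ faces t, v i, ?_, ?_⟩
  · intro k hk hs
    have hk' : (faces k).card = 2 := card_of_dim k hk
    obtain ⟨i, hi, h1, h2, -⟩ := subset_single hr hk' (cone_subset_iff.1 hs)
    have h3 : ∑ i ∈ faces k \ faces t, v i = v i := by
      rw [h2, Finset.sum_singleton]
    have h4 := normal_vector hi h1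
    rw [← h3] at h4
    exact h4
  · have h1 : vectorSpan ℝ (fanC.cell t) = Lin (faces t) := vectorSpan_cone _
    rw [h1]
    refine ⟨Pi.single r (((![0, 0, 1, 0, 0, 0, 1, -1] : Fin 8 → ℤ) r : ℤ) : ℝ), ?_, ?_⟩
    · intro i hi
      rw [hr, Finset.mem_singleton] at hi
      exact Pi.single_eq_of_ne hi _
    · funext j
      rw [comb_apply, Finset.sum_eq_single r]
      · rw [Pi.single_eq_same]
        have h2 := sum_filter_eq hr (fun _ => ((1 : ℕ) : ℝ)) j
        have h3 : (((∑ k, T r k j : ℤ)) : ℝ) =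
            (((![0, 0, 1, 0, 0, 0, 1, -1] : Fin 8 → ℤ) r * v r j : ℤ) : ℝ) := by
          rw [faces_bal]
        push_cast at h3
        simp only [Nat.cast_one, one_mul] at h2
        rw [← h3, ← h2, Finset.sum_apply]
        refine Finset.sum_congr ?_ fun k _ => ?_
        · rfl
        · simp [toReal, Finset.sum_apply]
      · intro i _ hi
        rw [Pi.single_eq_of_ne hi, zero_mul]
      · intro h
        exact absurd (Finset.mem_univ _) h

/-- the fan with all weights `1` -/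
noncomputable def fan : BalancedComplex 4 2 where
  toPolyhedralComplex := fanC
  weight _ := 1
  weight_pos _ _ := one_pos
  balanced := fan_balanced

theorem fan_connected : ConnectedInCodimOne fan.toPolyhedralComplex := by
  have hstep : ∀ a b : Fin 20, ((faces b).card = 2 ∧ ∃ t, (faces t).card = 1 ∧
      faces t ⊆ faces a ∧ faces t ⊆ faces b) →
      dim (fan.cell b) = 2 ∧ Adjacent fan.toPolyhedralComplex a b := by
    rintro a b ⟨h1, t, h2, h3, h4⟩
    refine ⟨?_, t, ?_, cone_mono h3, cone_mono h4⟩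
    · have := dim_cone b
      rw [h1] at this
      exact this
    · have := dim_cone t
      rw [h2] at this
      have h5 : dim (fan.cell t) = 1 := this
      rw [h5]
  have hsymm : ∀ a b : Fin 20, (faces a).card = 2 → ((faces b).card = 2 ∧
      ∃ t, (faces t).card = 1 ∧ faces t ⊆ faces a ∧ faces t ⊆ faces b) →
      ((faces a).card = 2 ∧ ∃ t, (faces t).card = 1 ∧ faces t ⊆ faces b ∧ faces t ⊆ faces a) :=
    fun a b ha h => ⟨ha, h.2.imp fun t ht => ⟨ht.1, ht.2.2, ht.2.1⟩⟩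
  intro k l hk hl
  have hk' : (faces k).card = 2 := card_of_dim k hk
  have hl' : (faces l).card = 2 := card_of_dim l hl
  obtain ⟨a1, a2, a3⟩ := faces_path k hk'
  obtain ⟨b1, b2, b3⟩ := faces_path l hl'
  refine Relation.ReflTransGen.head (hstep _ _ a1) ?_
  refine Relation.ReflTransGen.head (hstep _ _ a2) ?_
  refine Relation.ReflTransGen.head (hstep _ _ a3) ?_
  refine Relation.ReflTransGen.head (hstep _ _ (hsymm _ _ b2.1 b3)) ?_
  refine Relation.ReflTransGen.head (hstep _ _ (hsymm _ _ b1.1 b2)) ?_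
  refine Relation.ReflTransGen.head (hstep _ _ (hsymm _ _ hl' b1)) ?_
  exact Relation.ReflTransGen.refl

/-- normal vectors are unique modulo the ridge -/
theorem normal_unique {s t : Fin 20} {i : Fin 8} (hi : i ∈ faces s)
    (ht : faces t = (faces s).erase i) {u : Fin 4 → ℤ}
    (hu : IsNormalVector (cone (faces t)) (cone (faces s)) u) :
    toReal u - toReal (v i) ∈ Lin (faces t) := by
  obtain ⟨⟨x, ⟨c, hc, hs, rfl⟩, ε, hε, ⟨c', hc', hs', h'⟩⟩, hgen⟩ := hu
  have hts : faces t ⊆ faces s := by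
    rw [ht]
    exact Finset.erase_subset _ _
  have hit : i ∉ faces t := by
    rw [ht]
    exact Finset.notMem_erase i _
  have hs1 : ∀ j, j ∉ faces s → c j = 0 := fun j hj => hs j fun h => hj (hts h)
  -- `u` in coordinates
  have hu1 : toReal u = comb (ε⁻¹ • (c' + (-1 : ℝ) • c)) := by
    rw [comb_smul, comb_add, comb_smul, h']
    funext j
    simp only [Pi.add_apply, Pi.smul_apply, smul_eq_mul]
    field_simp
    ring
  set d := ε⁻¹ • (c' + (-1 : ℝ) • c) with hd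
  have hds : ∀ j, j ∉ faces s → d j = 0 := by
    intro j hj
    rw [hd, Pi.smul_apply, Pi.add_apply, Pi.smul_apply, hs1 j hj, hs' j hj]
    simp
  have hdi : d i = ((∑ l, D s i l * u l : ℤ) : ℝ) := by
    rw [← ap_D hds hi, ← hu1]
    unfold ap toReal
    push_cast
    rfl
  have hdnn : 0 ≤ d i := by
    rw [hd, Pi.smul_apply, Pi.add_apply, Pi.smul_apply, hs i hit]
    have := hc' i
    have := inv_pos.2 hε
    simp only [smul_eq_mul, mul_zero, add_zero]
    positivity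
  obtain ⟨k, hk⟩ := hgen (v i) (by
    rw [vectorSpan_cone]
    obtain ⟨e, -, hes, he⟩ := ray_mem_cone hi
    exact ⟨e, hes, he⟩)
  rw [vectorSpan_cone] at hk
  obtain ⟨e, hes, he⟩ := hk
  have hes' : ∀ j, j ∉ faces s → e j = 0 := fun j hj => hes j fun h => hj (hts h)
  have h1 := ap_D hes' hi
  rw [he, hes i hit] at h1
  have h2 : ap (D s i) (toReal (v i - k • u)) =
      (((∑ l, D s i l * v i l) - k * (∑ l, D s i l * u l) : ℤ) : ℝ) := by
    unfold ap toReal
    rw [Finset.mul_sum, ← Finset.sum_sub_distrib]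
    push_cast
    refine Finset.sum_congr rfl fun l _ => ?_
    simp only [Pi.sub_apply, Pi.smul_apply, smul_eq_mul]
    push_cast
    ring
  rw [h2, hD s i hi i hi, if_pos rfl] at h1
  have h3 : (1 : ℤ) - k * (∑ l, D s i l * u l) = 0 := by exact_mod_cast h1
  have h4 : (0 : ℤ) ≤ ∑ l, D s i l * u l := by
    rw [hdi] at hdnn
    exact_mod_cast hdnn
  have h5 : (∑ l, D s i l * u l : ℤ) = 1 := by
    have h6 : (∑ l, D s i l * u l : ℤ) ∣ 1 := ⟨k, by linarith⟩
    exact Int.eq_one_of_dvd_one h4 h6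
  have h7 : d i = 1 := by
    rw [hdi, h5]
    simp
  refine ⟨d + (-1 : ℝ) • Pi.single i 1, fun j hj => ?_, ?_⟩
  · by_cases hji : j = i
    · subst hji
      simp [h7]
    · have hj' : j ∉ faces s := by
        rw [ht, Finset.mem_erase] at hj
        exact fun h => hj ⟨hji, h⟩
      rw [Pi.add_apply, hds j hj', Pi.smul_apply, Pi.single_eq_of_ne hji]
      simp
  · rw [comb_add, ← hu1, comb_smul, comb_single]
    funext j
    simp [toReal]
    ring

open Classical in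
/-- the balancing condition at a ray in coordinates -/
theorem balanced_eq {w : Fin 20 → ℝ} (hw : IsBalanced fanC w) {t : Fin 20} {r : Fin 8}
    (ht : faces t = {r}) : ∃ a : ℝ, ∀ j, ∑ k, w k * (T r k j : ℝ) = a * (v r j : ℝ) := by
  have hdim : dim (fanC.cell t) + 1 = 2 := by
    have h1 : dim (fanC.cell t) = (faces t).card := dim_cone t
    rw [h1, ht, Finset.card_singleton]
  obtain ⟨u, hu, hsum⟩ := hw t hdim
  have h1 : vectorSpan ℝ (fanC.cell t) = Lin (faces t) := vectorSpan_cone _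
  rw [h1] at hsum
  have h2 : ∑ k ∈ Finset.univ.filter (fun k : Fin 20 => dim (cone (faces k)) = 2 ∧
      cone (faces t) ⊆ cone (faces k)), w k • (toReal (u k) -
        toReal (∑ i ∈ faces k \ faces t, v i)) ∈ Lin (faces t) := by
    refine Submodule.sum_mem _ fun k hk => Submodule.smul_mem _ _ ?_
    rw [Finset.mem_filter] at hk
    obtain ⟨-, hk1, hk2⟩ := hk
    have hk' : (faces k).card = 2 := by
      rw [← dim_cone]
      exact hk1
    obtain ⟨i, hi, g1, g2, -⟩ := subset_single ht hk' (cone_subset_iff.1 hk2)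
    rw [g2, Finset.sum_singleton]
    exact normal_unique hi g1 (hu k hk1 hk2)
  have h3 := (Lin (faces t)).sub_mem hsum h2
  obtain ⟨c, hcs, hc⟩ := h3
  refine ⟨c r, fun j => ?_⟩
  rw [← sum_filter_eq ht w j]
  have h4 := congrFun hc j
  rw [comb_apply, Finset.sum_eq_single r] at h4
  · rw [h4]
    have h5 : (∑ σ with dim (fanC.cell σ) = 2 ∧ fanC.cell t ⊆ fanC.cell σ,
        w σ • toReal (u σ)) = ∑ k ∈ Finset.univ.filter (fun k : Fin 20 =>
          dim (cone (faces k)) = 2 ∧ cone (faces t) ⊆ cone (faces k)), w k • toReal (u k) := rfl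
    rw [h5, ← Finset.sum_sub_distrib, Finset.sum_apply]
    refine Finset.sum_congr rfl fun k _ => ?_
    simp [toReal, Finset.sum_apply]
    ring
  · intro i _ hi
    rw [hcs i, zero_mul]
    rw [ht, Finset.mem_singleton]
    exact hi
  · intro h
    exact absurd (Finset.mem_univ _) h

theorem fan_irreducible : IsIrreducible fan := by
  intro w0 hw
  let w : Fin 20 → ℝ := w0
  have hw : IsBalanced fanC w := hw
  obtain ⟨a1, h1⟩ := balanced_eq hw (t := 1) (r := 0) rfl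
  obtain ⟨a2, h2⟩ := balanced_eq hw (t := 2) (r := 1) rfl
  obtain ⟨a3, h3⟩ := balanced_eq hw (t := 3) (r := 2) rfl
  obtain ⟨a4, h4⟩ := balanced_eq hw (t := 4) (r := 3) rfl
  obtain ⟨a5, h5⟩ := balanced_eq hw (t := 5) (r := 4) rfl
  obtain ⟨a8, h8⟩ := balanced_eq hw (t := 8) (r := 7) rfl
  have e1 := h1 0
  have e2 := h1 1
  have e3 := h1 2
  have e4 := h2 0
  have e5 := h2 1
  have e6 := h2 2
  have e7 := h3 0
  have e8 := h3 1
  have e9 := h3 2
  have e10 := h3 3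
  have e11 := h4 0
  have e13 := h4 2
  have e14 := h4 3
  have e15 := h5 0
  have e17 := h5 2
  have e18 := h5 3
  have e19 := h8 0
  have e20 := h8 1
  simp [Fin.sum_univ_succ, T, v] at e1 e2 e3 e4 e5 e6 e7 e8 e9 e10 e11 e13 e14 e15 e17 e18 e19 e20
  have hcases : ∀ k : Fin 20, (faces k).card = 2 → k = 9 ∨ k = 10 ∨ k = 11 ∨ k = 12 ∨ k = 13 ∨
      k = 14 ∨ k = 15 ∨ k = 16 ∨ k = 17 ∨ k = 18 ∨ k = 19 := by decide +kernel
  refine ⟨w 9, fun k hk => ?_⟩
  have hw1 : w0 k = w k := rfl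
  have hw2 : ((fan.weight k : ℕ) : ℝ) = 1 := by
    have : fan.weight k = 1 := rfl
    rw [this, Nat.cast_one]
  rw [hw1, hw2, mul_one]
  rcases hcases k (card_of_dim k hk) with h | h | h | h | h | h | h | h | h | h | h <;> rw [h] <;>
    linarith


/-! ### The plane -/

/-- the plane `x₀ = -1, x₁ = 0` -/
def plane : Set (Fin 4 → ℝ) := {x | x 0 = -1 ∧ x 1 = 0}

theorem plane_vectorSpan {x : Fin 4 → ℝ} (hx : x ∈ vectorSpan ℝ plane) : x 0 = 0 ∧ x 1 = 0 := by
  have h : vectorSpan ℝ plane ≤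
      (LinearMap.ker (LinearMap.proj 0 : (Fin 4 → ℝ) →ₗ[ℝ] ℝ)) ⊓
        (LinearMap.ker (LinearMap.proj 1 : (Fin 4 → ℝ) →ₗ[ℝ] ℝ)) := by
    rw [vectorSpan_def, Submodule.span_le]
    rintro _ ⟨y, hy, z, hz, rfl⟩
    refine ⟨?_, ?_⟩
    · simp [hy.1, hz.1]
    · simp [hy.2, hz.2]
  have h1 := h hx
  exact ⟨by simpa using h1.1, by simpa using h1.2⟩

theorem mem_plane_span {x : Fin 4 → ℝ} (h0 : x 0 = 0) (h1 : x 1 = 0) :
    x ∈ vectorSpan ℝ plane := by
  have h2 : (![-1, 0, x 2, x 3] : Fin 4 → ℝ) ∈ plane := ⟨rfl, rfl⟩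
  have h3 : (![-1, 0, 0, 0] : Fin 4 → ℝ) ∈ plane := ⟨rfl, rfl⟩
  have h4 := vsub_mem_vectorSpan ℝ h2 h3
  convert h4 using 1
  funext j
  fin_cases j <;> simp [h0, h1]

theorem dim_plane : dim plane = 2 := by
  unfold dim
  have hli : LinearIndependent ℝ (![![0, 0, 1, 0], ![0, 0, 0, 1]] : Fin 2 → Fin 4 → ℝ) := by
    rw [LinearIndependent.pair_iff]
    intro a b hab
    have h2 := congrFun hab 2
    have h3 := congrFun hab 3
    simp at h2 h3
    exact ⟨h2, h3⟩
  have hsp : vectorSpan ℝ plane =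
      Submodule.span ℝ (range (![![0, 0, 1, 0], ![0, 0, 0, 1]] : Fin 2 → Fin 4 → ℝ)) := by
    apply le_antisymm
    · intro x hx
      obtain ⟨h0, h1⟩ := plane_vectorSpan hx
      have h4 : x = x 2 • (![0, 0, 1, 0] : Fin 4 → ℝ) + x 3 • (![0, 0, 0, 1] : Fin 4 → ℝ) := by
        funext j
        fin_cases j <;> simp [h0, h1]
      rw [h4]
      refine Submodule.add_mem _ (Submodule.smul_mem _ _ (Submodule.subset_span ⟨0, rfl⟩))
        (Submodule.smul_mem _ _ (Submodule.subset_span ⟨1, rfl⟩))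
    · rw [Submodule.span_le]
      rintro _ ⟨i, rfl⟩
      fin_cases i
      · exact mem_plane_span rfl rfl
      · exact mem_plane_span rfl rfl
  rw [hsp, finrank_span_eq_card hli]
  simp

theorem plane_face {F : Set (Fin 4 → ℝ)} (hF : IsFace F plane) (hne : F.Nonempty) :
    plane = F := by
  obtain ⟨u, c, h1, rfl⟩ := hF
  obtain ⟨x, hx, hxc⟩ := hne
  ext y
  refine ⟨fun hy => ⟨hy, ?_⟩, fun hy => hy.1⟩
  have h2 : ((2 : ℝ) • x - y) ∈ plane := by
    refine ⟨?_, ?_⟩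
    · simp only [Pi.sub_apply, Pi.smul_apply, hx.1, hy.1, smul_eq_mul]
      norm_num
    · simp only [Pi.sub_apply, Pi.smul_apply, hx.2, hy.2, smul_eq_mul]
      norm_num
  have h3 := h1 _ h2
  have h4 : ∑ j, u j * ((2 : ℝ) • x - y) j = 2 * c - ∑ j, u j * y j := by
    rw [← hxc, Finset.mul_sum, ← Finset.sum_sub_distrib]
    refine Finset.sum_congr rfl fun j _ => ?_
    simp only [Pi.sub_apply, Pi.smul_apply, smul_eq_mul]
    ring
  rw [h4] at h3
  exact le_antisymm (h1 y hy) (by linarith)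

/-- the plane as a polyhedral complex with one cell -/
noncomputable def planeC : PolyhedralComplex 4 2 where
  ι := Unit
  cell _ := plane
  cell_injective := fun _ _ _ => rfl
  cell_nonempty _ := ⟨![-1, 0, 0, 0], rfl, rfl⟩
  rational := by
    classical
    intro _
    refine ⟨{(![1, 0, 0, 0], -1), (![-1, 0, 0, 0], 1), (![0, 1, 0, 0], 0), (![0, -1, 0, 0], 0)}, ?_⟩
    ext x
    simp only [plane, mem_ofPred_eq, Finset.mem_insert, Finset.mem_singleton, forall_eq_or_imp,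
      forall_eq, Fin.sum_univ_four]
    simp
    constructor
    · rintro ⟨h0, h1⟩
      refine ⟨?_, ?_, ?_, ?_⟩ <;> linarith
    · rintro ⟨h1, h2, h3, h4⟩
      constructor <;> linarith
  face_mem := fun _ F hF hne => ⟨(), plane_face hF hne⟩
  inter_face := by
    intro _ _ _
    refine ⟨0, 0, fun x _ => by simp, ?_⟩
    ext x
    simp
  pure _ := ⟨(), subset_rfl, dim_plane⟩
  dim_le _ := dim_plane.le

/-- the plane with weight `1` -/
noncomputable def planeB : BalancedComplex 4 2 where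
  toPolyhedralComplex := planeC
  weight _ := 1
  weight_pos _ _ := one_pos
  balanced := by
    intro t ht
    exfalso
    have h1 : dim (planeC.cell t) = 2 := dim_plane
    rw [h1] at ht
    omega

theorem cone_plane {k : Fin 20} {x : Fin 4 → ℝ} (hx : x ∈ cone (faces k)) (hp : x ∈ plane) :
    (3 ∉ faces k → x = ![-1, 0, 0, 0]) ∧
    (3 ∈ faces k → x 2 < -(1 / 2) ∨ 1 / 4 < x 3) := by
  obtain ⟨c, hc, hs, rfl⟩ := hx
  obtain ⟨e0, e1, e2, e3⟩ := comb_eq c
  obtain ⟨p0, p1⟩ := hp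
  rw [e0] at p0
  rw [e1] at p1
  have hn := faces_not k
  have n0 := hc 0
  have n1 := hc 1
  have n2 := hc 2
  have n3 := hc 3
  have n4 := hc 4
  have n5 := hc 5
  have n6 := hc 6
  have n7 := hc 7
  have hcase : ∀ k : Fin 20, (3 ∉ faces k → 7 ∉ faces k → True) ∧
      (7 ∈ faces k → 2 ∉ faces k ∧ 3 ∉ faces k ∧ 4 ∉ faces k ∧ 5 ∉ faces k ∧ 6 ∉ faces k) ∧
      (3 ∈ faces k → 0 ∉ faces k ∧ 1 ∉ faces k ∧ 2 ∉ faces k ∧ 7 ∉ faces k ∧
        (4 ∉ faces k ∨ (5 ∉ faces k ∧ 6 ∉ faces k))) ∧ ¬ (0 ∈ faces k ∧ 1 ∈ faces k) := by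
    decide +kernel
  obtain ⟨-, h7, h3, h01⟩ := hcase k
  have hc0 : c 0 = 0 := by
    by_cases h0 : 0 ∈ faces k
    · have := hs 1 fun h1 => h01 ⟨h0, h1⟩
      linarith
    · exact hs 0 h0
  have hc1 : c 1 = 0 := by linarith
  constructor
  · intro h3'
    have hc3 := hs 3 h3'
    have h7' : 7 ∈ faces k := by
      by_contra h
      have := hs 7 h
      linarith
    obtain ⟨g2, -, g4, g5, g6⟩ := h7 h7'
    have r2 := hs 2 g2
    have r4 := hs 4 g4
    have r5 := hs 5 g5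
    have r6 := hs 6 g6
    funext j
    fin_cases j
    · simp only [Fin.zero_eta, e0]
      simpa using p0
    · simp only [Fin.mk_one, e1]
      simpa using p1
    · simp only [Fin.reduceFinMk, e2, r2, hc3, r4, r6]
      simp
    · simp only [Fin.reduceFinMk, e3, r4, r5]
      simp
  · intro h3'
    obtain ⟨-, -, g2, g7, g⟩ := h3 h3'
    have r2 := hs 2 g2
    have r7 := hs 7 g7
    rw [e2, e3]
    have r3 : c 3 = 1 := by linarith
    rcases g with g | ⟨g5, g6⟩
    · have r4 := hs 4 g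
      left
      linarith
    · have r5 := hs 5 g5
      have r6 := hs 6 g6
      by_cases h : c 4 < 3 / 8
      · left
        linarith
      · right
        linarith

theorem stable_point : (![-1, 0, 0, 0] : Fin 4 → ℝ) ∈ stableIntersection fan planeB := by
  have hp1 : (![-1, 0, 0, 0] : Fin 4 → ℝ) ∈ plane := ⟨rfl, rfl⟩
  have hf : faces 11 = {0, 7} := rfl
  have hray0 : toReal (v 0) ∈ cone (faces 11) := ray_mem_cone (by rw [hf]; simp)
  have hray7 : toReal (v 7) ∈ cone (faces 11) := ray_mem_cone (by rw [hf]; simp)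
  have h7eq : toReal (v 7) = ![-1, 0, 0, 0] := by
    funext j
    fin_cases j <;> simp [toReal, v]
  have h0eq : toReal (v 0) = ![1, 1, 0, 0] := by
    funext j
    fin_cases j <;> simp [toReal, v]
  refine ⟨(11 : Fin 20), (), ?_, ?_, hp1⟩
  · change dim (cone (faces 11) + plane) = 4
    have hspan : vectorSpan ℝ (cone (faces 11) + plane) = ⊤ := by
      rw [eq_top_iff]
      intro x _
      -- differences
      have hA : ∀ y ∈ cone (faces 11), y ∈ vectorSpan ℝ (cone (faces 11) + plane) := by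
        intro y hy
        have h1 := vsub_mem_vectorSpan ℝ (add_mem_add hy hp1)
          (add_mem_add (zero_mem_cone (faces 11)) hp1)
        rwa [vsub_eq_sub, add_sub_add_right_eq_sub, sub_zero] at h1
      have hB : ∀ y z, y ∈ plane → z ∈ plane →
          y - z ∈ vectorSpan ℝ (cone (faces 11) + plane) := by
        intro y z hy hz
        have h1 := vsub_mem_vectorSpan ℝ (add_mem_add (zero_mem_cone (faces 11)) hy)
          (add_mem_add (zero_mem_cone (faces 11)) hz)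
        rwa [vsub_eq_sub, add_sub_add_left_eq_sub] at h1
      have h1 := hA _ hray0
      have h2 := hA _ hray7
      have h3 := hB ![-1, 0, x 2, x 3] ![-1, 0, 0, 0] ⟨rfl, rfl⟩ hp1
      have h4 : x = x 1 • toReal (v 0) + (x 1 - x 0) • toReal (v 7) +
          ((![-1, 0, x 2, x 3] : Fin 4 → ℝ) - ![-1, 0, 0, 0]) := by
        rw [h0eq, h7eq]
        funext j
        fin_cases j <;> simp
      rw [h4]
      exact Submodule.add_mem _ (Submodule.add_mem _ (Submodule.smul_mem _ _ h1)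
        (Submodule.smul_mem _ _ h2)) h3
    unfold dim
    rw [hspan, finrank_top]
    simp
  · rw [← h7eq]
    exact hray7

theorem stable_sub {x : Fin 4 → ℝ} (hx : x ∈ stableIntersection fan planeB) :
    x = ![-1, 0, 0, 0] := by
  obtain ⟨k0, j, hdim, hx1, hx2⟩ := hx
  let k : Fin 20 := k0
  have hx1 : x ∈ cone (faces k) := hx1
  have hx2 : x ∈ plane := hx2
  have hdim : dim (cone (faces k) + plane) = 4 := hdim
  refine (cone_plane hx1 hx2).1 fun h3 => ?_
  have hsub : ∀ k : Fin 20, 3 ∈ faces k → 0 ∉ faces k ∧ 1 ∉ faces k := by decide +kernel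
  obtain ⟨h0, h1⟩ := hsub k h3
  have hlt : Module.finrank ℝ (vectorSpan ℝ (cone (faces k) + plane)) <
      Module.finrank ℝ (Fin 4 → ℝ) := by
    apply Submodule.finrank_lt
    intro htop
    have hle : vectorSpan ℝ (cone (faces k) + plane) ≤
        LinearMap.ker (LinearMap.proj 1 : (Fin 4 → ℝ) →ₗ[ℝ] ℝ) := by
      rw [vectorSpan_def, Submodule.span_le]
      have hz : ∀ y ∈ cone (faces k) + plane, y 1 = 0 := by
        rintro _ ⟨a, ⟨c, hc, hs, rfl⟩, b, hb, rfl⟩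
        obtain ⟨-, e1, -, -⟩ := comb_eq c
        simp only [Pi.add_apply, e1, hs 0 h0, hs 1 h1, hb.2]
        norm_num
      rintro _ ⟨y, hy, z, hz', rfl⟩
      simp [hz y hy, hz z hz']
    rw [htop] at hle
    have h5 : (![0, 1, 0, 0] : Fin 4 → ℝ) ∈ LinearMap.ker
        (LinearMap.proj 1 : (Fin 4 → ℝ) →ₗ[ℝ] ℝ) := hle trivial
    simp at h5
  unfold dim at hdim
  rw [hdim] at hlt
  simp at hlt

/-- **Theorem.** There are a balanced polyhedral complex `A` of dimension two in `ℝ⁴` (a fan,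
connected through codimension one and irreducible) and a balanced polyhedral complex `B` (a plane)
such that the stable intersection of `A` and `B` is nonempty and some connected component of
`|A| ∩ |B|` is disjoint from it. -/
theorem result : ∃ A B : BalancedComplex 4 2,
    (∀ i, ∀ x ∈ A.cell i, ∀ r : ℝ, 0 ≤ r → r • x ∈ A.cell i) ∧
    ConnectedInCodimOne A.toPolyhedralComplex ∧ IsIrreducible A ∧
    (∃ i, B.support = B.cell i) ∧
    (stableIntersection A B).Nonempty ∧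
    ∃ x ∈ A.support ∩ B.support,
      Disjoint (connectedComponentIn (A.support ∩ B.support) x) (stableIntersection A B) := by
  refine ⟨fan, planeB, ?_, fan_connected, fan_irreducible, ⟨(), ?_⟩, ⟨_, stable_point⟩,
    ![-1, 0, -1, 0], ⟨?_, ?_⟩, ?_⟩
  · rintro i _ ⟨c, hc, hs, rfl⟩ r hr
    refine ⟨r • c, fun j => mul_nonneg hr (hc j), fun j hj => ?_, comb_smul r c⟩
    rw [Pi.smul_apply, hs j hj, smul_zero]
  · apply subset_antisymm
    · exact iUnion_subset fun _ => subset_rfl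
    · exact subset_iUnion (fun i => planeB.cell i) ()
  · refine mem_iUnion.2 ⟨(17 : Fin 20), ?_⟩
    have h3 : toReal (v 3) = ![-1, 0, -1, 0] := by
      funext j
      fin_cases j <;> simp [toReal, v]
    rw [← h3]
    have h : toReal (v 3) ∈ cone (faces 17) := ray_mem_cone (by
      have hf : faces 17 = {3, 4} := rfl
      rw [hf]
      simp)
    exact h
  · exact mem_iUnion.2 ⟨(), rfl, rfl⟩
  · set S := fan.support ∩ planeB.support with hS
    have hxS : (![-1, 0, -1, 0] : Fin 4 → ℝ) ∈ S := by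
      refine ⟨mem_iUnion.2 ⟨(17 : Fin 20), ?_⟩, mem_iUnion.2 ⟨(), rfl, rfl⟩⟩
      have h3 : toReal (v 3) = ![-1, 0, -1, 0] := by
        funext j
        fin_cases j <;> simp [toReal, v]
      rw [← h3]
      have h : toReal (v 3) ∈ cone (faces 17) := ray_mem_cone (by
        have hf : faces 17 = {3, 4} := rfl
        rw [hf]
        simp)
      exact h
    let U : Set (Fin 4 → ℝ) := {x | -(1 / 2) < x 2 ∧ x 3 < 1 / 4}
    let V : Set (Fin 4 → ℝ) := {x | x 2 < -(1 / 2) ∨ 1 / 4 < x 3}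
    have hU : IsOpen U := (isOpen_lt continuous_const (continuous_apply 2)).inter
      (isOpen_lt (continuous_apply 3) continuous_const)
    have hV : IsOpen V := (isOpen_lt (continuous_apply 2) continuous_const).union
      (isOpen_lt continuous_const (continuous_apply 3))
    have hUV : Disjoint U V := by
      rw [Set.disjoint_left]
      rintro x ⟨h1, h2⟩ (h3 | h3) <;> linarith
    have hcov : S ⊆ U ∪ V := by
      rintro x ⟨hx1, hx2⟩
      obtain ⟨k0, hk⟩ := mem_iUnion.1 hx1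
      obtain ⟨j, hp⟩ := mem_iUnion.1 hx2
      let k : Fin 20 := k0
      have hk : x ∈ cone (faces k) := hk
      have hp : x ∈ plane := hp
      by_cases h3 : 3 ∈ faces k
      · exact Or.inr ((cone_plane hk hp).2 h3)
      · left
        rw [(cone_plane hk hp).1 h3]
        refine ⟨?_, ?_⟩
        · simp
        · simp
    have hcomp : connectedComponentIn S ![-1, 0, -1, 0] ⊆ V := by
      refine isPreconnected_connectedComponentIn.subset_right_of_subset_union hU hV hUV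
        ((connectedComponentIn_subset _ _).trans hcov)
        ⟨_, mem_connectedComponentIn hxS, ?_⟩
      left
      simp
      norm_num
    rw [Set.disjoint_left]
    intro x hx hx'
    have h1 := hcomp hx
    rw [stable_sub hx'] at h1
    rcases h1 with h1 | h1
    · simp at h1
      linarith
    · simp at h1
      linarith

end Pool.Agent.Results.MP_7d0545_co.StableComponent
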